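import Pool.Agent.N457.KS.Gapg
import Pool.Agent.N659.HB.Stm4
import Pool.Agent.W792.WA.Stm3

/-!
# KG/GAPH: the gap for a law close to a bounded law

For `MP_1906c1_mp` (project KG of helper659), after the proof of helper457 for one bounded law.
-/

set_option autoImplicit false

namespace Pool.Agent.N346.KG.Gaph

open MeasureTheory Filter Pool.Agent.W792.LL Pool.Agent.W792.WA Pool.Agent.N659.HB
open Pool.Agent.N163.HB.GAPA Pool.Agent.N457.KS.Gapg
open scoped Topology ENNReal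

noncomputable section

/-! ### Complex numbers -/

theorem cayx_zero (x : ℂ) : cayx x 0 = (x + Complex.I) / (x - Complex.I) := by
  unfold cayx
  rw [Complex.ofReal_zero, add_zero]

theorem sub_I_ne {x : ℂ} (h : x.im ≤ 0) : x - Complex.I ≠ 0 := by
  intro h0
  have := congrArg Complex.im h0
  simp at this
  linarith

/-- the norm of the Cayley transform -/
theorem cay_norm {x : ℂ} {c E : ℝ} (hc : 0 < c) (hx : x.im ≤ -c) (hE : ‖x‖ + 1 ≤ E) :
    4 * c ≤ E ^ 2 ∧ ‖cayx x 0‖ ≤ 1 - 2 * c / E ^ 2 := by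
  have hE0 : 0 < E := by
    have := norm_nonneg x
    linarith
  have hne : x - Complex.I ≠ 0 := sub_I_ne (by linarith)
  obtain ⟨A, hA⟩ : ∃ A, A = ‖x + Complex.I‖ := ⟨_, rfl⟩
  obtain ⟨B, hB⟩ : ∃ B, B = ‖x - Complex.I‖ := ⟨_, rfl⟩
  have hA0 : 0 ≤ A := by rw [hA]; exact norm_nonneg _
  have hB0 : 0 < B := by rw [hB]; exact norm_pos_iff.2 hne
  have hBE : B ≤ E := by
    have h1 := norm_sub_le x Complex.I
    rw [Complex.norm_I] at h1
    rw [hB]
    linarith
  have hAB : A ^ 2 = B ^ 2 + 4 * x.im := by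
    rw [hA, hB, ← Complex.normSq_eq_norm_sq, ← Complex.normSq_eq_norm_sq, Complex.normSq_apply,
      Complex.normSq_apply]
    simp
    ring
  have hB2 : B ^ 2 ≤ E ^ 2 := pow_le_pow_left₀ hB0.le hBE 2
  have h4 : 4 * c ≤ E ^ 2 := by
    have := sq_nonneg A
    linarith
  refine ⟨h4, ?_⟩
  have hE2 : 0 < E ^ 2 := by positivity
  obtain ⟨t, ht⟩ : ∃ t, t = 2 * c / E ^ 2 := ⟨_, rfl⟩
  have ht0 : 0 < t := by rw [ht]; positivity
  have ht1 : t ≤ 1 / 2 := by
    rw [ht, div_le_iff₀ hE2]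
    linarith
  have htE : t * E ^ 2 = 2 * c := by
    rw [ht]
    field_simp
  rw [cayx_zero, norm_div, ← hA, ← hB, ← ht, div_le_iff₀ hB0]
  have h5 : A ^ 2 ≤ ((1 - t) * B) ^ 2 := by
    have h6 : t * B ^ 2 ≤ t * E ^ 2 := mul_le_mul_of_nonneg_left hB2 ht0.le
    have h7 : 0 ≤ t ^ 2 * B ^ 2 := by positivity
    have h8 : ((1 - t) * B) ^ 2 = B ^ 2 - 2 * (t * B ^ 2) + t ^ 2 * B ^ 2 := by ring
    rw [h8, hAB]
    linarith
  exact (pow_le_pow_iff_left₀ hA0 (mul_nonneg (by linarith) hB0.le) two_ne_zero).1 h5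

/-- change of the phase -/
theorem pert {w S : ℂ} {e : ℝ} (hS : ‖S‖ ≤ 1 / 4) (hSi : S.im ≤ 0) (he : e ≤ 1 / 64)
    (hw : ‖w - cayx S 0‖ ≤ e) : w - 1 ≠ 0 ∧
      cayx (Complex.I * (w + 1) / (w - 1)) 0 = w ∧
      ‖Complex.I * (w + 1) / (w - 1) - S‖ ≤ e := by
  have hne : S - Complex.I ≠ 0 := sub_I_ne hSi
  obtain ⟨v, hv⟩ : ∃ v, v = cayx S 0 := ⟨_, rfl⟩
  rw [← hv] at hw
  have e1 : v - 1 = 2 * Complex.I / (S - Complex.I) := by
    rw [hv, cayx_zero, div_sub_one hne]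
    congr 1
    ring
  have h1 : ‖S - Complex.I‖ ≤ 5 / 4 := by
    have := norm_sub_le S Complex.I
    rw [Complex.norm_I] at this
    linarith
  have h2 : 8 / 5 ≤ ‖v - 1‖ := by
    rw [e1, norm_div, norm_mul, Complex.norm_I, Complex.norm_two, mul_one,
      le_div_iff₀ (norm_pos_iff.2 hne)]
    linarith
  have h3 : 3 / 2 ≤ ‖w - 1‖ := by
    have h4 := norm_sub_norm_le (v - 1) (w - 1)
    have h5 : v - 1 - (w - 1) = -(w - v) := by ring
    rw [h5, norm_neg] at h4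
    linarith
  have hw1 : w - 1 ≠ 0 := by
    intro h0
    rw [h0, norm_zero] at h3
    linarith
  have hv1 : v - 1 ≠ 0 := by
    intro h0
    rw [h0, norm_zero] at h2
    linarith
  have hI : Complex.I ≠ 0 := Complex.I_ne_zero
  refine ⟨hw1, ?_, ?_⟩
  · rw [cayx_zero]
    have e2 : Complex.I * (w + 1) / (w - 1) + Complex.I = 2 * Complex.I * w / (w - 1) := by
      field_simp
      ring
    have e3 : Complex.I * (w + 1) / (w - 1) - Complex.I = 2 * Complex.I / (w - 1) := by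
      field_simp
      ring
    rw [e2, e3]
    field_simp
  · have e4 : S = Complex.I * (v + 1) / (v - 1) := by
      rw [eq_div_iff hv1]
      rw [eq_div_iff hne] at e1
      linear_combination e1
    have e5 : Complex.I * (w + 1) / (w - 1) - S =
        Complex.I * (2 * (v - w)) / ((w - 1) * (v - 1)) := by
      rw [e4]
      field_simp
      ring
    rw [e5, norm_div, norm_mul, norm_mul, norm_mul, Complex.norm_I, Complex.norm_two, one_mul]
    have h6 : ‖v - w‖ ≤ e := by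
      rw [← norm_neg, neg_sub]
      exact hw
    have h7 : 2 ≤ ‖w - 1‖ * ‖v - 1‖ := by nlinarith
    have he0 : 0 ≤ e := (norm_nonneg _).trans h6
    rw [div_le_iff₀ (by linarith)]
    nlinarith

theorem toC_apply {X : Type} [TopologicalSpace X] {f : X → ℂ} (h : Continuous f) (k : X) :
    toC f k = f k := by
  unfold toC
  rw [dif_pos h]
  rfl

/-! ### The theorem -/

theorem main : S_ZR → S_SEG → S_LV → S_UX → S_CX → S_UUC → S_FIX → S_CAY → S_PSIX →
    S_GAPH := by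
  intro hZR hSE hLV hUX hCX _ hFIX _ hPSI ψ hψ X₀ X₁ d n K α r b κ s₂ c₀ Λ D₀ τ hN hcd hvr
    hνα hm h2 hW
  have hα0 := hN.hα
  have hr := hN.hr
  have hb := hN.hb
  have hκ := hN.hκ
  have hs' := hN.hs
  have hs1 := hN.hs1
  have hc := hN.hc
  have hD0 := hN.hD
  have hη₁ : 0 < etaG α s₂ c₀ := by unfold etaG; positivity
  have heta : etaG α s₂ c₀ = α * s₂ * c₀ / 360 := rfl
  obtain ⟨η, hηd⟩ : ∃ η, η = etaG α s₂ c₀ / 2 := ⟨_, rfl⟩
  have hη : 0 < η := by rw [hηd]; linarith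
  have hsc : s₂ * c₀ ≤ b := by
    calc s₂ * c₀ ≤ 1 * c₀ := mul_le_mul_of_nonneg_right hs1 hc.le
      _ = c₀ := one_mul _
      _ ≤ b := hN.e7
  have hαb : 0 < α * b := by positivity
  have hηR : η ≤ 3 * α * b := by
    rw [hηd, heta]
    have h1 : α * (s₂ * c₀) ≤ α * b := mul_le_mul_of_nonneg_left hsc hα0.le
    linarith
  obtain ⟨zr1, zr2, zr3, zr4⟩ := hZR d (3 * α * b) η hη hηR
  have hσ : 0 < 2 * η / (3 * α * b + 1) ^ 2 := by positivity
  refine ⟨2 * η / (3 * α * b + 1) ^ 2, hσ, ?_⟩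
  intro ρ' _ hρ' z hz s hs0
  suffices h : s ∈ ZR d (3 * α * b) η from (zr3 s h).1
  obtain ⟨hz1, hz2, hz3, hz4⟩ := hz
  have hprob : IsProbabilityMeasure (lev ψ r) := lev_prob ψ _
  have hsupp : ((lev ψ r).conv ρ')
      (Set.Icc (-(r + r / 8)) (r + r / 8))ᶜ = 0 :=
    conv_supp _ _ (lev_supp hψ hr) hρ'
  obtain ⟨q0, hq0, hq1, hq⟩ := hCX.2.2.1 (r + r / 8) (‖K‖ + ‖z‖) z.im hz3
  refine (hFIX (qlaw X₀) d ((lev ψ r).conv ρ') (r + r / 8) q0 (wz K z)
    hvr hsupp (hCX.2.2.2 d K z hz3.le) hq0 hq1 ?_).2.2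
    (ZR d (3 * α * b) η) zr1 zr2 (fun s hs => hs.1) ?_ s hs0
  · intro k a ha
    refine hq _ a ?_ ?_ (abs_le.2 ha)
    · refine (norm_sub_le _ _).trans ?_
      rw [Complex.norm_real]
      linarith [K.norm_coe_le_norm k]
    · simp
  clear hs0 s
  intro s hs
  obtain ⟨-, S, hS⟩ := zr3 s hs
  -- the energy
  obtain ⟨hWD, hW1, hW2, hdos⟩ := hW z.re hz1 hz2
  obtain ⟨R, hR1, hR2, hR3, hR4⟩ : ∃ R : ℝ, r / 4 ≤ R ∧ z.im ≤ R ∧ (R = r / 4 ∨ R = z.im) ∧
      (R ≤ 1 ∨ R = r / 4) := by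
    rcases le_total z.im (r / 4) with h | h
    · exact ⟨r / 4, le_rfl, h, Or.inl rfl, Or.inr rfl⟩
    · exact ⟨z.im, h, le_rfl, Or.inr rfl, Or.inl hz4⟩
  -- one momentum
  obtain ⟨D, hD⟩ : ∃ D : ℝ, D = D₀ + 1 + 3 * α * b + 2 * r := ⟨_, rfl⟩
  have hxre : ∀ k, ((K k : ℂ) - z).re = K k - z.re := by
    intro k
    rw [Complex.sub_re, Complex.ofReal_re]
  have hxim : ∀ k, ((K k : ℂ) - z).im = -z.im := by
    intro k
    rw [Complex.sub_im, Complex.ofReal_im]
    ring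
  have hxD : ∀ k, ‖((K k : ℂ) - z) + S k‖ + 2 * r ≤ D := by
    intro k
    have h1 := norm_add_le ((K k : ℂ) - z) (S k)
    have h3 := Complex.norm_le_abs_re_add_abs_im ((K k : ℂ) - z)
    rw [hxre, hxim, abs_neg, abs_of_pos hz3] at h3
    have h4 := hWD k
    have h5 := (hS k).2.1
    rw [hD]
    linarith
  have hone := fun k => one_k' (R := R) hLV hUX hψ hr hη hN.e2 ρ' hρ'
    (hxre k) (by rw [hxim]; linarith) hR1 (by rw [hxim, neg_neg]; exact hR2)
    (by rw [hxim, neg_neg]; exact hR3) (hS k).2.1 (hS k).2.2 (hxD k)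
  -- continuity
  have hKc : Continuous fun k => ((K k : ℂ) - z) :=
    (Complex.continuous_ofReal.comp K.continuous).sub continuous_const
  have htc : Continuous fun k => ((K k : ℂ) - z) + S k := hKc.add S.continuous
  have hβc : Continuous fun k => bet ((lev ψ r).conv ρ') (((K k : ℂ) - z) + S k) := by
    have hle : ∀ k k', dist (bet ((lev ψ r).conv ρ') (((K k : ℂ) - z) + S k))
        (bet ((lev ψ r).conv ρ') (((K k' : ℂ) - z) + S k')) ≤
        dist (((K k : ℂ) - z) + S k) (((K k' : ℂ) - z) + S k') / η ^ 2 := by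
      intro k k'
      have hi : ∀ k, (((K k : ℂ) - z) + S k).im ≤ -η := by
        intro k
        rw [Complex.add_im, hxim]
        linarith [(hS k).2.2]
      have h1 := (hLV ψ hψ r ρ' hr hρ' (((K k : ℂ) - z) + S k)
        (by linarith [hi k])).2.2.2.2.2 (((K k' : ℂ) - z) + S k') (by linarith [hi k'])
      rw [dist_eq_norm, dist_eq_norm]
      refine h1.trans ?_
      apply div_le_div_of_nonneg_left (norm_nonneg _) (by positivity)
      have h3 := hi k
      have h4 := hi k'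
      nlinarith
    rw [continuous_iff_continuousAt]
    intro k0
    rw [ContinuousAt, tendsto_iff_dist_tendsto_zero]
    refine squeeze_zero (fun k => dist_nonneg) (fun k => hle k k0) ?_
    have h3 : Tendsto (fun k => dist (((K k : ℂ) - z) + S k) (((K k0 : ℂ) - z) + S k0))
        (𝓝 k0) (𝓝 0) := tendsto_iff_dist_tendsto_zero.1 (htc.tendsto k0)
    simpa using h3.div_const (η ^ 2)
  have hXc : Continuous fun k =>
      1 / bet ((lev ψ r).conv ρ') (((K k : ℂ) - z) + S k) - S k :=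
    (continuous_const.div hβc fun k => (hone k).1).sub S.continuous
  obtain ⟨X, hX⟩ : ∃ X : C(UnitAddTorus (Fin d), ℂ), ∀ k, X k =
      1 / bet ((lev ψ r).conv ρ') (((K k : ℂ) - z) + S k) - S k :=
    ⟨⟨_, hXc⟩, fun k => rfl⟩
  have hUUX : UU ((lev ψ r).conv ρ') (wz K z) s = toC fun k => cayx (X k) 0 := by
    unfold UU
    congr 1
    funext k
    rw [hX k, (hS k).1]
    exact (hone k).2.1
  have hDp : 0 < D := by
    rw [hD]
    positivity
  obtain ⟨c₁, hc₁⟩ : ∃ c₁, c₁ = cG α r b s₂ c₀ D₀ / 8 := ⟨_, rfl⟩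
  have hcval : c₁ = η ^ 3 * r ^ 2 / (4 * D ^ 4) := by
    rw [hc₁, hηd]
    unfold cG
    rw [← hD]
    ring
  have hcpos : 0 < c₁ := by
    rw [hcval]
    positivity
  have hXim : ∀ k, (X k).im ≤ -c₁ := by
    intro k
    rw [hX, hcval]
    exact (hone k).2.2.1
  -- the size of X
  obtain ⟨E₁, hE₁⟩ : ∃ E₁, E₁ = EX α r b s₂ c₀ D₀ := ⟨_, rfl⟩
  have hE₁v : E₁ = D ^ 2 / η + 3 * α * b + 1 := by
    rw [hE₁, hηd]
    unfold EX
    rw [← hD]
  have hXn : ∀ k, ‖X k‖ + 1 ≤ E₁ := by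
    intro k
    have him : (((K k : ℂ) - z) + S k).im ≤ -η := by
      rw [Complex.add_im, hxim]
      linarith [(hS k).2.2]
    obtain ⟨-, -, -, l4, -, -⟩ := hLV ψ hψ r ρ' hr hρ' (((K k : ℂ) - z) + S k) (by linarith)
    have h1 : η / D ^ 2 ≤ (bet ((lev ψ r).conv ρ') (((K k : ℂ) - z) + S k)).im := by
      refine le_trans ?_ l4
      apply div_le_div₀ (by linarith) (by linarith) (by positivity)
      exact pow_le_pow_left₀ (by positivity) (hxD k) 2
    have h3 : η / D ^ 2 ≤ ‖bet ((lev ψ r).conv ρ') (((K k : ℂ) - z) + S k)‖ :=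
      h1.trans ((le_abs_self _).trans (Complex.abs_im_le_norm _))
    have h4 : ‖1 / bet ((lev ψ r).conv ρ') (((K k : ℂ) - z) + S k)‖ ≤ D ^ 2 / η := by
      rw [norm_div, norm_one]
      calc 1 / ‖bet ((lev ψ r).conv ρ') (((K k : ℂ) - z) + S k)‖ ≤ 1 / (η / D ^ 2) :=
            one_div_le_one_div_of_le (by positivity) h3
        _ = D ^ 2 / η := by rw [one_div_div]
    have h5 := norm_sub_le (1 / bet ((lev ψ r).conv ρ') (((K k : ℂ) - z) + S k)) (S k)
    have h6 := (hS k).2.1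
    rw [hX, hE₁v]
    linarith
  -- the integrals
  have hqc : Continuous fun k => (α : ℂ) / X k := by
    refine continuous_const.div X.continuous fun k h0 => ?_
    have := hXim k
    rw [h0, Complex.zero_im] at this
    linarith
  have hqb := fun k => q_bound (S := S k) hα0 (hone k).1 (hone k).2.2.2.2.1
  obtain ⟨i1, i2, i3, i4⟩ := int_part' (K := K) (E := z.re) (R := R) (c₀ := c₀)
    (q := fun k => (α : ℂ) / X k) hα0 hr hb (by linarith) hβc hqc
    (fun k => (hone k).2.2.2.1) (fun k => by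
      show ‖(α : ℂ) / X k‖ ≤ _
      rw [hX k]
      exact (hqb k).1)
    (fun k => by
      show ‖(α : ℂ) / X k - _‖ ≤ _
      rw [hX k]
      refine (hqb k).2.trans ?_
      have h1 := (hone k).2.2.2.1
      have h3 := (hone k).2.2.2.2.2.1
      have h4 : 0 ≤ α * ‖bet ((lev ψ r).conv ρ') (((K k : ℂ) - z) + S k)‖ := by
        positivity
      calc _ ≤ 2 * (α * ‖bet ((lev ψ r).conv ρ') (((K k : ℂ) - z) + S k)‖) *
            (3 * b * (α * ‖bet ((lev ψ r).conv ρ') (((K k : ℂ) - z) + S k)‖)) :=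
            mul_le_mul_of_nonneg_left h3 (by positivity)
        _ = 6 * b * (α * ‖bet ((lev ψ r).conv ρ') (((K k : ℂ) - z) + S k)‖) ^ 2 := by
            ring
        _ ≤ 6 * b * (α * wl r (K k - z.re)) ^ 2 :=
            mul_le_mul_of_nonneg_left (pow_le_pow_left₀ h4
              (mul_le_mul_of_nonneg_left h1 hα0.le) 2) (by positivity))
    (fun k => (hone k).2.2.2.2.2.2.1) (fun k hk => (hone k).2.2.2.2.2.2.2 hk)
    hW1 hW2 (hdos R hR1 hR4)
  -- the self-energy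
  have he8 := hN.e8
  rw [← hc₁] at he8
  obtain ⟨S', hS'1, hS'2, hS'3⟩ := hSE (qlaw X₁) d n α c₁ (4 * α / r) (4 * Λ) b κ X hα0
    hνα hm hcpos hXim hN.hn hb hκ.le i1 i2 i3 hN.e1 hN.e2' hN.κ2 hN.e3 hN.e4 he8
  rw [h2] at hS'3
  have hS'n : ∀ k, ‖S' k‖ ≤ 2 * (α * b) := by
    intro k
    have h1 : ‖(α : ℂ) * ((s₂ : ℝ) : ℂ) * ∫ p, (α : ℂ) / X p‖ ≤ α * b := by
      rw [norm_mul, norm_mul, Complex.norm_real, Complex.norm_real, Real.norm_of_nonneg hα0.le,
        Real.norm_of_nonneg hs'.le]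
      have h3 : ‖∫ p, (α : ℂ) / X p‖ ≤ b := (norm_integral_le_integral_norm _).trans i3
      calc α * s₂ * ‖∫ p, (α : ℂ) / X p‖ ≤ α * 1 * b :=
            mul_le_mul (mul_le_mul_of_nonneg_left hs1 hα0.le) h3 (norm_nonneg _) (by positivity)
        _ = α * b := by ring
    have h3 := norm_sub_le (S' k + (α : ℂ) * ((s₂ : ℝ) : ℂ) * ∫ p, (α : ℂ) / X p)
      ((α : ℂ) * ((s₂ : ℝ) : ℂ) * ∫ p, (α : ℂ) / X p)
    rw [add_sub_cancel_right] at h3
    have h4 : 50 * α * b * κ ≤ α * b := by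
      calc 50 * α * b * κ = (50 * κ) * (α * b) := by ring
        _ ≤ 1 * (α * b) := mul_le_mul_of_nonneg_right (by linarith [hN.e3]) hαb.le
        _ = α * b := one_mul _
    have h5 := hS'3 k
    linarith
  have hS'im : ∀ k, (S' k).im ≤ -etaG α s₂ c₀ := by
    intro k
    have h1 := (abs_le.1 ((Complex.abs_im_le_norm _).trans (hS'3 k))).2
    rw [Complex.add_im] at h1
    have h3 : ((α : ℂ) * ((s₂ : ℝ) : ℂ) * ∫ p, (α : ℂ) / X p).im =
        (α * s₂) * (∫ p, (α : ℂ) / X p).im := by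
      rw [← Complex.ofReal_mul, Complex.im_ofReal_mul]
    rw [h3] at h1
    have hαs : 0 < α * s₂ := by positivity
    have h4 := mul_le_mul_of_nonneg_left i4 hαs.le
    have h5 : 50 * α * b * κ ≤ α * (s₂ * c₀ / 720) := by
      calc 50 * α * b * κ = α * (50 * b * κ) := by ring
        _ ≤ α * (s₂ * c₀ / 720) := mul_le_mul_of_nonneg_left hN.e5 hα0.le
    have h6 : (α * s₂) * (6 * b * Λ) ≤ (α * s₂) * (c₀ / 720) :=
      mul_le_mul_of_nonneg_left hN.e6 hαs.le
    rw [heta]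
    rw [mul_sub] at h4
    have h7 : (α * s₂) * (c₀ / 180) = 4 * (α * s₂ * c₀ / 720) := by ring
    have h8 : (α * s₂) * (c₀ / 720) = α * s₂ * c₀ / 720 := by ring
    have h9 : α * (s₂ * c₀ / 720) = α * s₂ * c₀ / 720 := by ring
    have h10 : α * s₂ * c₀ / 360 = 2 * (α * s₂ * c₀ / 720) := by ring
    rw [h7] at h4
    rw [h8] at h6
    rw [h9] at h5
    rw [h10]
    linarith
  rw [hUUX]
  -- the change of the law
  obtain ⟨e, he⟩ : ∃ e, e = epsL α r b s₂ c₀ D₀ τ := ⟨_, rfl⟩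
  have he9 := hN.e9
  have he10 := hN.e10
  rw [← he] at he9 he10
  have he0 : 0 ≤ e := by
    rw [he]
    unfold epsL
    rw [← hc₁]
    have := hN.hτ
    positivity
  have hcay := fun k => cay_norm hcpos (hXim k) (hXn k)
  have hE0 : 0 < E₁ := by
    have := norm_nonneg (X 0)
    linarith [hXn 0]
  have hE2 : 0 < E₁ ^ 2 := by positivity
  have h4c := (hcay 0).1
  have hq2 : 2 * c₁ / E₁ ^ 2 ≤ 1 / 2 := by
    rw [div_le_iff₀ hE2]
    linarith
  have hq3 : 0 < 2 * c₁ / E₁ ^ 2 := by positivity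
  have hcc : Continuous fun k => cayx (X k) 0 := by
    have e1 : (fun k => cayx (X k) 0) = fun k => (X k + Complex.I) / (X k - Complex.I) := by
      funext k
      exact cayx_zero _
    rw [e1]
    exact (X.continuous.add continuous_const).div (X.continuous.sub continuous_const)
      fun k => sub_I_ne (by linarith [hXim k])
  have hmn : ‖toC fun k => cayx (X k) 0‖ ≤ 1 - 2 * c₁ / E₁ ^ 2 := by
    rw [ContinuousMap.norm_le _ (by linarith)]
    intro k
    rw [toC_apply hcc]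
    exact (hcay k).2
  have hpsi := hPSI (1 - 2 * c₁ / E₁ ^ 2) τ X₀ X₁ (by linarith) (by linarith) hN.hτ hcd d
    (toC fun k => cayx (X k) 0) hmn
  have hval : 8 / (1 - (1 - 2 * c₁ / E₁ ^ 2)) ^ 3 * τ = e := by
    rw [he]
    unfold epsL
    rw [← hc₁, ← hE₁, sub_sub_cancel]
    field_simp
    norm_num
  rw [hval] at hpsi
  obtain ⟨w, hw⟩ : ∃ w, w = psi (qlaw X₀) (toC fun k => cayx (X k) 0) := ⟨_, rfl⟩
  rw [← hw] at hpsi ⊢
  have hwk : ∀ k, ‖w k - cayx (S' k) 0‖ ≤ e := by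
    intro k
    rw [← hS'2 k]
    refine le_trans ?_ hpsi
    exact ContinuousMap.norm_coe_le_norm
      (w - psi (qlaw X₁) (toC fun k => cayx (X k) 0)) k
  have he11 : e ≤ 1 / 64 := by linarith [hN.e2'']
  have hp := fun k => pert (w := w k) (S := S' k) (e := e) (by linarith [hS'n k, hN.e2''])
    (hS'1 k) he11 (hwk k)
  have hTc : Continuous fun k => Complex.I * (w k + 1) / (w k - 1) :=
    (continuous_const.mul (w.continuous.add continuous_const)).div
      (w.continuous.sub continuous_const) fun k => (hp k).1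
  refine zr4 _ ⟨fun k => Complex.I * (w k + 1) / (w k - 1), hTc⟩ fun k => ⟨(hp k).2.1.symm, ?_, ?_⟩
  · show ‖Complex.I * (w k + 1) / (w k - 1)‖ ≤ 3 * α * b
    have h1 := norm_add_le (S' k) (Complex.I * (w k + 1) / (w k - 1) - S' k)
    rw [add_sub_cancel] at h1
    linarith [(hp k).2.2, hS'n k]
  · show (Complex.I * (w k + 1) / (w k - 1)).im ≤ -η
    have h1 := (abs_le.1 ((Complex.abs_im_le_norm _).trans (hp k).2.2)).2
    rw [Complex.sub_im] at h1
    rw [hηd]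
    linarith [hS'im k]

end

end Pool.Agent.N346.KG.Gaph
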